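import Pool.Agent.P8H24.PG.Stm2

/-!
# Package SOL of the project PG, second part
-/

set_option autoImplicit false

open scoped commutatorElement

namespace Pool.Agent.P8H75.PG

open Pool.Agent.P8H24.PG

section Nil

variable {G H : Type} [Group G] [Group H]

theorem nil_map (K : Subgroup G) (f : G →* H) (h : Group.IsNilpotent K) :
    Group.IsNilpotent (K.map f) := by
  rw [Subgroup.isNilpotent_iff_lowerCentralSeries] at h ⊢
  obtain ⟨n, hn⟩ := h
  refine ⟨n, ?_⟩
  rw [← Subgroup.map_lowerCentralSeries, hn, Subgroup.map_bot]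

theorem nil_of_map (K : Subgroup G) (f : G →* H) (hf : Function.Injective f)
    (h : Group.IsNilpotent (K.map f)) : Group.IsNilpotent K := by
  rw [Subgroup.isNilpotent_iff_lowerCentralSeries] at h ⊢
  obtain ⟨n, hn⟩ := h
  refine ⟨n, ?_⟩
  rw [← Subgroup.map_lowerCentralSeries] at hn
  exact (Subgroup.map_eq_bot_iff_of_injective _ hf).mp hn

theorem nil_mono {K K' : Subgroup G} (hK : K ≤ K') (h : Group.IsNilpotent K') :
    Group.IsNilpotent K := by
  rw [Subgroup.isNilpotent_iff_lowerCentralSeries] at h ⊢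
  obtain ⟨n, hn⟩ := h
  exact ⟨n, le_bot_iff.mp (hn ▸ Subgroup.lowerCentralSeries_mono n hK)⟩

theorem nil_cyclic (x : G) : Group.IsNilpotent (Subgroup.closure {x, x}) := by
  rw [Set.pair_eq_singleton, Subgroup.isNilpotent_iff_lowerCentralSeries]
  refine ⟨1, ?_⟩
  rw [Subgroup.lowerCentralSeries_succ, Subgroup.lowerCentralSeries_zero,
    Subgroup.commutator_eq_bot_iff_le_centralizer, ← Subgroup.zpowers_eq_closure]
  intro y hy
  rw [Subgroup.mem_centralizer_iff]
  intro z hz
  obtain ⟨i, rfl⟩ := Subgroup.mem_zpowers_iff.mp hy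
  obtain ⟨j, rfl⟩ := Subgroup.mem_zpowers_iff.mp hz
  rw [← zpow_add, ← zpow_add, add_comm]

end Nil

section DD

variable {S : Type} [Group S]

theorem dd_mem {M : Subgroup S} [hM : M.Normal] (a : S) {x : S} (hx : x ∈ M) : dd a x ∈ M :=
  M.mul_mem (M.inv_mem hx) (hM.conj_mem x hx a)

/-- powers of a unipotent element are unipotent -/
theorem dd_pow {M : Subgroup S} [hMn : M.Normal] (hM : ∀ x ∈ M, ∀ y ∈ M, x * y = y * x) (a : S)
    (m k : ℕ) {x : S} (hx : x ∈ M) (h : (dd a)^[k] x = 1) : (dd (a ^ m))^[k] x = 1 := by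
  let inst : CommGroup M := { (inferInstance : Group M) with
    mul_comm := fun u v => Subtype.ext (hM u u.2 v v.2) }
  let F : S → AddMonoid.End (Additive M) := fun a =>
    MonoidHom.toAdditive ((MulAut.conjNormal a : MulAut M).toMonoidHom)
  have hF : ∀ (a : S) (v : Additive M), ((F a v).toMul : S) = a * (v.toMul : S) * a⁻¹ := by
    intro a v
    exact MulAut.conjNormal_apply a v.toMul
  have hpow : ∀ (a : S) (j : ℕ), F (a ^ j) = F a ^ j := by
    intro a j
    induction j with
    | zero =>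
      ext v
      rw [hF]
      simp
    | succ j ih =>
      ext v
      rw [hF, pow_succ (F a), ← ih]
      show a ^ (j + 1) * (v.toMul : S) * (a ^ (j + 1))⁻¹ = ((F (a ^ j) (F a v)).toMul : S)
      rw [hF, hF, pow_succ]
      group
  have hD : ∀ (a : S) (j : ℕ) (v : Additive M),
      ((((F a - 1) ^ j) v).toMul : S) = (dd a)^[j] (v.toMul : S) := by
    intro a j v
    induction j with
    | zero => rfl
    | succ j ih =>
      rw [Function.iterate_succ_apply', ← ih, pow_succ']
      show (((F a - 1) (((F a - 1) ^ j) v)).toMul : S) = _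
      set w := ((F a - 1) ^ j) v
      have h1 : (F a - 1) w = F a w - w := rfl
      have h2 : (((F a w - w).toMul : M) : S) = ((F a w).toMul : S) * (w.toMul : S)⁻¹ := by
        rw [toMul_sub, div_eq_mul_inv]
        rfl
      rw [h1, h2, hM _ (F a w).toMul.2 _ (M.inv_mem w.toMul.2), hF]
      rfl
  have h0 : ((F a - 1) ^ k) (Additive.ofMul (⟨x, hx⟩ : M)) = 0 := by
    have h1 := hD a k (Additive.ofMul (⟨x, hx⟩ : M))
    apply Additive.toMul.injective
    apply Subtype.ext
    rw [h1]
    exact h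
  have h2 : (F (a ^ m) - 1) ^ k = (∑ i ∈ Finset.range m, F a ^ i) ^ k * (F a - 1) ^ k := by
    rw [hpow, ← geom_sum_mul, Commute.mul_pow]
    apply Commute.sum_left
    intro i _
    exact ((Commute.refl (F a)).pow_left i).sub_right (Commute.one_right _)
  have h3 : ((F (a ^ m) - 1) ^ k) (Additive.ofMul (⟨x, hx⟩ : M)) = 0 := by
    rw [h2]
    show ((∑ i ∈ Finset.range m, F a ^ i) ^ k) (((F a - 1) ^ k) (Additive.ofMul (⟨x, hx⟩ : M))) = 0
    rw [h0, map_zero]
  have h4 := hD (a ^ m) k (Additive.ofMul (⟨x, hx⟩ : M))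
  rw [h3] at h4
  exact h4.symm

theorem dd_conj (a c y : S) : c * dd (c⁻¹ * a * c) y * c⁻¹ = dd a (c * y * c⁻¹) := by
  unfold dd
  group

theorem dd_conj_iter (a c : S) (k : ℕ) (y : S) :
    c * (dd (c⁻¹ * a * c))^[k] y * c⁻¹ = (dd a)^[k] (c * y * c⁻¹) := by
  induction k with
  | zero => rfl
  | succ k ih =>
    rw [Function.iterate_succ_apply', Function.iterate_succ_apply', dd_conj, ih]

theorem dd_map {H : Type} [Group H] (f : S →* H) (a x : S) (k : ℕ) :
    f ((dd a)^[k] x) = (dd (f a))^[k] (f x) := by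
  induction k with
  | zero => rfl
  | succ k ih =>
    rw [Function.iterate_succ_apply', Function.iterate_succ_apply', ← ih]
    unfold dd
    simp only [map_mul, map_inv]

end DD

theorem sol : S_STEP → S_SOL := by
  intro hstep S _ t g N l hN hl hle hcomm hg ht
  have main : ∀ i : ℕ, ∃ m : ℕ, 0 < m ∧ Group.IsNilpotent
      ((Subgroup.closure {t ^ m, g⁻¹ * t ^ m * g}).map (QuotientGroup.mk' (N i))) := by
    intro i
    induction i with
    | zero =>
      obtain ⟨m, hm, hmg⟩ := hg
      refine ⟨m, hm, ?_⟩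
      rw [MonoidHom.map_closure, Set.image_pair]
      have h1 : QuotientGroup.mk' (N 0) (g⁻¹ * t ^ m * g) = QuotientGroup.mk' (N 0) (t ^ m) := by
        rw [← div_eq_one, ← map_div, div_eq_mul_inv]
        rw [QuotientGroup.mk'_apply, QuotientGroup.eq_one_iff]
        unfold dd at hmg
        have h2 : g⁻¹ * t ^ m * g * (t ^ m)⁻¹ = g⁻¹ * (t ^ m * g * (t ^ m)⁻¹) := by group
        rw [h2]
        exact hmg
      rw [h1]
      exact nil_cyclic _
    | succ i ih =>
      obtain ⟨m, hm, hnil⟩ := ih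
      set π := QuotientGroup.mk' (N (i + 1)) with hπ
      set M := (N i).map π with hMdef
      have hMn : M.Normal := (hN i).map π (QuotientGroup.mk'_surjective _)
      have hMc : ⁅M, M⁆ = ⊥ := by
        rw [hMdef, ← Subgroup.map_commutator, Subgroup.map_eq_bot_iff, hπ,
          QuotientGroup.ker_mk']
        exact hcomm i
      have hMab : ∀ x ∈ M, ∀ y ∈ M, x * y = y * x := by
        intro x hx y hy
        have h1 : ⁅x, y⁆ ∈ ⁅M, M⁆ := Subgroup.commutator_mem_commutator hx hy
        rw [hMc, Subgroup.mem_bot] at h1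
        exact commutatorElement_eq_one_iff_mul_comm.mp h1
      have hU : ∀ x ∈ M, ∃ m' : ℕ, 0 < m' ∧ ∃ k : ℕ, (dd ((π t ^ m) ^ m'))^[k] x = 1 := by
        rintro _ ⟨x, hx, rfl⟩
        obtain ⟨m', hm', k, hk⟩ := ht i x hx
        refine ⟨m', hm', k, ?_⟩
        have h1 : (dd (π t ^ m'))^[k] (π x) = 1 := by
          rw [← map_pow, ← dd_map, hπ, QuotientGroup.mk'_apply, QuotientGroup.eq_one_iff]
          exact hk
        rw [← pow_mul, mul_comm m m', pow_mul]
        exact dd_pow hMab _ m k ⟨x, hx, rfl⟩ h1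
      have hV : ∀ x ∈ M, ∃ m' : ℕ, 0 < m' ∧ ∃ k : ℕ,
          (dd ((π (g⁻¹ * t ^ m * g)) ^ m'))^[k] x = 1 := by
        intro x hx
        obtain ⟨m', hm', k, hk⟩ := hU (π g * x * (π g)⁻¹) (hMn.conj_mem x hx _)
        refine ⟨m', hm', k, ?_⟩
        have h1 : π (g⁻¹ * t ^ m * g) ^ m' = (π g)⁻¹ * (π t ^ m) ^ m' * π g := by
          rw [map_mul, map_mul, map_inv, map_pow]
          have h2 : (π g)⁻¹ * π t ^ m * π g = (π g)⁻¹ * π t ^ m * ((π g)⁻¹)⁻¹ := by
            rw [inv_inv]
          rw [h2, conj_pow, inv_inv]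
        rw [h1]
        have h3 := dd_conj_iter ((π t ^ m) ^ m') (π g) k x
        rw [hk] at h3
        have h4 : π g * (dd ((π g)⁻¹ * (π t ^ m) ^ m' * π g))^[k] x = π g := by
          rw [mul_inv_eq_one] at h3
          exact h3
        exact mul_eq_left.mp h4
      have hnil' : Group.IsNilpotent
          ((Subgroup.closure {π t ^ m, π (g⁻¹ * t ^ m * g)}).map (QuotientGroup.mk' M)) := by
        have h1 : N i ≤ ((QuotientGroup.mk' M).comp π).ker := by
          intro x hx
          rw [MonoidHom.mem_ker, MonoidHom.comp_apply, QuotientGroup.mk'_apply,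
            QuotientGroup.eq_one_iff]
          exact ⟨x, hx, rfl⟩
        set ψ := QuotientGroup.lift (N i) ((QuotientGroup.mk' M).comp π) h1 with hψ
        have h2 : ψ.comp (QuotientGroup.mk' (N i)) = (QuotientGroup.mk' M).comp π := by
          ext x
          rfl
        have h3 := nil_map _ ψ hnil
        rw [Subgroup.map_map, h2, ← Subgroup.map_map, MonoidHom.map_closure, Set.image_pair,
          map_pow] at h3
        exact h3
      obtain ⟨m', hm', hres⟩ := hstep (S ⧸ N (i + 1)) M hMc (π t ^ m) (π (g⁻¹ * t ^ m * g))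
        hU hV hnil'
      refine ⟨m * m', Nat.mul_pos hm hm', ?_⟩
      rw [MonoidHom.map_closure, Set.image_pair]
      have e1 : QuotientGroup.mk' (N (i + 1)) (t ^ (m * m')) = (π t ^ m) ^ m' := by
        rw [map_pow, pow_mul]
      have e2 : QuotientGroup.mk' (N (i + 1)) (g⁻¹ * t ^ (m * m') * g) =
          π (g⁻¹ * t ^ m * g) ^ m' := by
        rw [← map_pow]
        congr 1
        have h2 : g⁻¹ * t ^ m * g = g⁻¹ * t ^ m * (g⁻¹)⁻¹ := by rw [inv_inv]
        rw [h2, conj_pow, inv_inv, pow_mul]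
      rw [e1, e2]
      exact hres
  obtain ⟨m, hm, hnil⟩ := main l
  refine ⟨m, hm, nil_of_map _ _ ?_ hnil⟩
  rw [← MonoidHom.ker_eq_bot_iff, QuotientGroup.ker_mk', hl]

end Pool.Agent.P8H75.PG
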