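import Pool.Agent.P8H75.PG.Sol

/-!
# Package VS of the project PG, second part
-/

set_option autoImplicit false

open scoped commutatorElement

namespace Pool.Agent.P8H75.PG

open Pool.Agent.P8H24.PG

section Char

variable {Γ : Type} [Group Γ]

/-- the product of two normal solvable subgroups is solvable -/
theorem solv_sup (C C' : Subgroup Γ) [C'.Normal] (h : Group.IsSolvable C)
    (h' : Group.IsSolvable C') : Group.IsSolvable (C ⊔ C' : Subgroup Γ) := by
  let f : C' →* (C ⊔ C' : Subgroup Γ) := Subgroup.inclusion le_sup_right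
  let π : (C ⊔ C' : Subgroup Γ) →* Γ ⧸ C' := (QuotientGroup.mk' C').comp (C ⊔ C').subtype
  have hr : ∀ x : (C ⊔ C' : Subgroup Γ), ∃ c : C, π x = QuotientGroup.mk' C' c := by
    rintro ⟨x, hx⟩
    obtain ⟨c, hc, c', hc', rfl⟩ := Subgroup.mem_sup_of_normal_right.mp hx
    refine ⟨⟨c, hc⟩, ?_⟩
    show QuotientGroup.mk' C' (c * c') = QuotientGroup.mk' C' c
    rw [map_mul]
    have h1 : QuotientGroup.mk' C' c' = 1 := by
      rw [QuotientGroup.mk'_apply, QuotientGroup.eq_one_iff]
      exact hc'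
    rw [h1, mul_one]
  -- the image
  let φ : C →* Γ ⧸ C' := (QuotientGroup.mk' C').comp C.subtype
  have hsub : π.range ≤ φ.range := by
    rintro _ ⟨x, rfl⟩
    obtain ⟨c, hc⟩ := hr x
    exact ⟨c, hc.symm⟩
  have h1 : Group.IsSolvable φ.range := Group.isSolvable_of_surjective φ.rangeRestrict_surjective
  have h2 : Group.IsSolvable π.range :=
    Group.isSolvable_of_isSolvable_injective (Subgroup.inclusion_injective hsub)
  refine Group.isSolvable_of_ker_le_range f π.rangeRestrict ?_
  intro x hx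
  rw [MonoidHom.mem_ker] at hx
  have h3 : π x = 1 := congrArg Subtype.val hx
  have h4 : (x : Γ) ∈ C' := by
    rw [← QuotientGroup.eq_one_iff (N := C')]
    exact h3
  exact ⟨⟨x, h4⟩, rfl⟩

/-- there is an invariant normal solvable subgroup of finite index -/
theorem exists_char (h : ∃ H : Subgroup Γ, H.FiniteIndex ∧ Group.IsSolvable H) (σ : Γ ≃* Γ) :
    ∃ C : Subgroup Γ, C.Normal ∧ C.FiniteIndex ∧ Group.IsSolvable C ∧ ∀ x, σ x ∈ C ↔ x ∈ C := by
  classical
  let Q : ℕ → Prop := fun n => ∃ C : Subgroup Γ, C.Normal ∧ C.FiniteIndex ∧ Group.IsSolvable C ∧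
    C.index = n
  have hQ : ∃ n, Q n := by
    obtain ⟨H, hH, hs⟩ := h
    refine ⟨H.normalCore.index, H.normalCore, inferInstance, inferInstance, ?_, rfl⟩
    exact Group.isSolvable_of_isSolvable_injective
      (Subgroup.inclusion_injective (Subgroup.normalCore_le H))
  obtain ⟨C, hCn, hCf, hCs, hCi⟩ := Nat.find_spec hQ
  have key : ∀ τ : Γ ≃* Γ, C.map τ.toMonoidHom ≤ C := by
    intro τ
    set C' := C.map τ.toMonoidHom with hC'
    have hC'n : C'.Normal := hCn.map _ τ.surjective
    have hC's : Group.IsSolvable C' :=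
      Group.isSolvable_of_surjective (τ.toMonoidHom.subgroupMap_surjective C)
    have hDs := solv_sup C C' hCs hC's
    have hle : C ≤ C ⊔ C' := le_sup_left
    have hDf : (C ⊔ C').FiniteIndex := Subgroup.finiteIndex_of_le hle
    have hDn : (C ⊔ C').Normal := Subgroup.sup_normal C C'
    have h1 : C.index ≤ (C ⊔ C').index := by
      rw [hCi]
      exact Nat.find_min' hQ ⟨C ⊔ C', hDn, hDf, hDs, rfl⟩
    have h2 : (C ⊔ C').index ∣ C.index := Subgroup.index_dvd_of_le hle
    have h3 : C.relIndex (C ⊔ C') * (C ⊔ C').index = C.index := Subgroup.relIndex_mul_index hle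
    have h4 : (C ⊔ C').index = C.index :=
      le_antisymm (Nat.le_of_dvd (Nat.pos_of_ne_zero hCf.index_ne_zero) h2) h1
    rw [h4] at h3
    have h5 : C.relIndex (C ⊔ C') = 1 := by
      have h6 : C.relIndex (C ⊔ C') * C.index = 1 * C.index := by rw [h3, one_mul]
      exact Nat.eq_of_mul_eq_mul_right (Nat.pos_of_ne_zero hCf.index_ne_zero) h6
    rw [Subgroup.relIndex_eq_one] at h5
    exact le_sup_right.trans h5
  refine ⟨C, hCn, hCf, hCs, fun x => ⟨fun hx => ?_, fun hx => ?_⟩⟩
  · have h1 := key σ.symm ⟨σ x, hx, rfl⟩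
    simpa using h1
  · exact key σ ⟨x, hx, rfl⟩

end Char

section Chain

/-- the derived series of a subgroup -/
def chain {Γ : Type} [Group Γ] (C : Subgroup Γ) : ℕ → Subgroup Γ
  | 0 => C
  | i + 1 => ⁅chain C i, chain C i⁆

variable {Γ : Type} [Group Γ]

theorem chain_map {H : Type} [Group H] (f : Γ →* H) (C : Subgroup Γ) (i : ℕ) :
    (chain C i).map f = chain (C.map f) i := by
  induction i with
  | zero => rfl
  | succ i ih =>
    show (⁅chain C i, chain C i⁆).map f = ⁅chain (C.map f) i, chain (C.map f) i⁆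
    rw [Subgroup.map_commutator, ih]

theorem chain_top (i : ℕ) : chain (⊤ : Subgroup Γ) i = derivedSeries Γ i := by
  induction i with
  | zero => rfl
  | succ i ih =>
    show ⁅chain (⊤ : Subgroup Γ) i, chain (⊤ : Subgroup Γ) i⁆ = _
    rw [ih]
    rfl

theorem chain_sub (C : Subgroup Γ) (i : ℕ) : chain C i = (derivedSeries C i).map C.subtype := by
  rw [← chain_top, chain_map, ← MonoidHom.range_eq_map, Subgroup.range_subtype]

theorem chain_normal (C : Subgroup Γ) [hC : C.Normal] (i : ℕ) : (chain C i).Normal := by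
  induction i with
  | zero => exact hC
  | succ i ih => exact Subgroup.commutator_normal _ _

theorem chain_inv (C : Subgroup Γ) (σ : Γ ≃* Γ) (h : ∀ x, σ x ∈ C ↔ x ∈ C) (i : ℕ) (x : Γ) :
    σ x ∈ chain C i ↔ x ∈ chain C i := by
  have h1 : C.map σ.toMonoidHom = C := by
    ext y
    constructor
    · rintro ⟨z, hz, rfl⟩
      exact (h z).mpr hz
    · intro hy
      refine ⟨σ.symm y, ?_, by simp⟩
      have := h (σ.symm y)
      rw [MulEquiv.apply_symm_apply] at this
      exact this.mp hy
  have h2 := chain_map σ.toMonoidHom C i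
  rw [h1] at h2
  constructor
  · intro hx
    rw [← h2] at hx
    obtain ⟨z, hz, hzx⟩ := hx
    have : z = x := σ.injective hzx
    rwa [← this]
  · intro hx
    rw [← h2]
    exact ⟨x, hx, rfl⟩

/-- the automorphisms which preserve a subgroup -/
def stab (K : Subgroup Γ) : Subgroup (MulAut Γ) where
  carrier := {τ | ∀ x, τ x ∈ K ↔ x ∈ K}
  one_mem' := fun x => Iff.rfl
  mul_mem' := by
    intro a b ha hb x
    exact (ha (b x)).trans (hb x)
  inv_mem' := by
    intro a ha x
    have h1 := ha (a⁻¹ x)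
    rw [MulAut.apply_inv_self] at h1
    exact h1.symm

theorem inl_normal (K : Subgroup Γ) [hK : K.Normal] (σ : MulAut Γ) (h : ∀ x, σ x ∈ K ↔ x ∈ K) :
    (K.map (SemidirectProduct.inl : Γ →* Γ ⋊[zpowersHom (MulAut Γ) σ] Multiplicative ℤ)).Normal := by
  constructor
  rintro _ ⟨x, hx, rfl⟩ s
  rw [← SemidirectProduct.inl_left_mul_inr_right s]
  refine ⟨s.left * (zpowersHom (MulAut Γ) σ s.right) x * s.left⁻¹, ?_, ?_⟩
  · apply hK.conj_mem
    have h1 : zpowersHom (MulAut Γ) σ s.right ∈ stab K := by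
      rw [zpowersHom_apply]
      exact Subgroup.zpow_mem (stab K) (show σ ∈ stab K from h) _
    exact (h1 x).mpr hx
  · rw [map_mul, map_mul, map_inv, SemidirectProduct.inl_aut, map_inv]
    group

end Chain

theorem diff_iter {Γ : Type} [Group Γ] (σ : Γ ≃* Γ) (t : Γ ⋊[zpowersHom (MulAut Γ) σ] Multiplicative ℤ)
    (ht : t = SemidirectProduct.inr (Multiplicative.ofAdd 1)) (m k : ℕ) (x : Γ) :
    (dd (t ^ m))^[k] (SemidirectProduct.inl x) =
      SemidirectProduct.inl ((diff σ.toMonoidHom m)^[k] x) := by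
  have h1 : ∀ (m : ℕ) (x : Γ), t ^ m * SemidirectProduct.inl x * (t ^ m)⁻¹ =
      SemidirectProduct.inl ((σ.toMonoidHom^[m]) x) := by
    intro m
    induction m with
    | zero =>
      intro x
      simp
    | succ m ih =>
      intro x
      have h2 : t ^ (m + 1) * SemidirectProduct.inl x * (t ^ (m + 1))⁻¹ =
          t * (t ^ m * SemidirectProduct.inl x * (t ^ m)⁻¹) * t⁻¹ := by
        rw [pow_succ']
        group
      rw [h2, ih, Function.iterate_succ_apply', ht, ← map_inv, ← SemidirectProduct.inl_aut,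
        zpowersHom_apply, toAdd_ofAdd, zpow_one]
      rfl
  induction k generalizing x with
  | zero => rfl
  | succ k ih =>
    rw [Function.iterate_succ_apply, Function.iterate_succ_apply]
    have h3 : dd (t ^ m) (SemidirectProduct.inl x) =
        SemidirectProduct.inl (diff σ.toMonoidHom m x) := by
      unfold dd diff
      rw [h1, map_mul, map_inv]
    rw [h3, ih]

theorem vs : S_SOL → S_VS := by
  intro hsol Γ _ hv σ hσ g
  obtain ⟨C, hCn, hCf, hCs, hCσ⟩ := exists_char hv σ
  obtain ⟨l, hl⟩ := hCs.solvable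
  have hNl : chain C l = ⊥ := by rw [chain_sub, hl, Subgroup.map_bot]
  -- pigeonhole
  obtain ⟨m₀, hm₀, hmg⟩ : ∃ m : ℕ, 0 < m ∧ g⁻¹ * (σ.toMonoidHom^[m]) g ∈ C := by
    have key : ∀ i j : ℕ, i < j → ((QuotientGroup.mk ((σ.toMonoidHom^[i]) g) : Γ ⧸ C) =
        QuotientGroup.mk ((σ.toMonoidHom^[j]) g)) → ∃ m : ℕ, 0 < m ∧
          g⁻¹ * (σ.toMonoidHom^[m]) g ∈ C := by
      intro i j hij h
      refine ⟨j - i, by omega, ?_⟩
      rw [QuotientGroup.eq] at h
      have h1 : ∀ (i : ℕ) (x : Γ), (σ.toMonoidHom^[i]) x ∈ C ↔ x ∈ C := by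
        intro i
        induction i with
        | zero => intro x; rfl
        | succ i ih =>
          intro x
          rw [Function.iterate_succ_apply]
          exact (ih _).trans (hCσ x)
      rw [← h1 i, iterate_map_mul, iterate_map_inv, ← Function.iterate_add_apply,
        Nat.add_sub_cancel' hij.le]
      exact h
    obtain ⟨i, j, hij, h⟩ := Finite.exists_ne_map_eq_of_infinite
      (fun i : ℕ => (QuotientGroup.mk ((σ.toMonoidHom^[i]) g) : Γ ⧸ C))
    rcases lt_or_gt_of_ne hij with h1 | h1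
    · exact key i j h1 h
    · exact key j i h1 h.symm
  set t : Γ ⋊[zpowersHom (MulAut Γ) σ] Multiplicative ℤ :=
    SemidirectProduct.inr (Multiplicative.ofAdd 1) with ht
  obtain ⟨m, hm, hnil⟩ := hsol _ t (SemidirectProduct.inl g)
    (fun i => (chain C i).map SemidirectProduct.inl) l
    (fun i => by
      have := chain_normal C i
      exact inl_normal (chain C i) σ (chain_inv C σ hCσ i))
    (by rw [hNl, Subgroup.map_bot])
    (fun i => Subgroup.map_mono (Subgroup.commutator_le_self _))
    (fun i => by rw [← Subgroup.map_commutator]; rfl)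
    ⟨m₀, hm₀, g⁻¹ * (σ.toMonoidHom^[m₀]) g, hmg, (diff_iter σ t ht m₀ 1 g).symm⟩
    (by
      rintro i _ ⟨x, hx, rfl⟩
      obtain ⟨m, hm, k, hk⟩ := hσ (chain C i) (chain_inv C σ hCσ i) x hx
      exact ⟨m, hm, k, _, hk, (diff_iter σ t ht m k x).symm⟩)
  set a := t ^ m with ha
  set W := Subgroup.closure {a, (SemidirectProduct.inl g)⁻¹ * a * SemidirectProduct.inl g} with hW
  have haW : a ∈ W := Subgroup.subset_closure (Set.mem_insert _ _)
  have h0 : dd a (SemidirectProduct.inl g) ∈ W := by
    have h1 : dd a (SemidirectProduct.inl g) =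
        ((SemidirectProduct.inl g)⁻¹ * a * SemidirectProduct.inl g) * a⁻¹ := by
      unfold dd
      group
    rw [h1]
    exact W.mul_mem (Subgroup.subset_closure (Set.mem_insert_of_mem _ rfl)) (W.inv_mem haW)
  have hlcs : ∀ i : ℕ, (dd a)^[i + 1] (SemidirectProduct.inl g) ∈ W.lowerCentralSeries i := by
    intro i
    induction i with
    | zero => exact h0
    | succ i ih =>
      rw [Function.iterate_succ_apply', Subgroup.lowerCentralSeries_succ]
      set z := (dd a)^[i + 1] (SemidirectProduct.inl g)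
      have h1 : dd a z = ⁅z⁻¹, a⁆ := by
        unfold dd
        rw [commutatorElement_def]
        group
      rw [h1]
      exact Subgroup.commutator_mem_commutator (Subgroup.inv_mem _ ih) haW
  refine ⟨m, hm, ?_, ?_⟩
  · obtain ⟨n, hn⟩ := (Subgroup.isNilpotent_iff_lowerCentralSeries W).mp hnil
    have h1 := hlcs n
    rw [hn, Subgroup.mem_bot, ha, diff_iter σ t ht m (n + 1) g] at h1
    refine ⟨n + 1, ?_⟩
    apply SemidirectProduct.inl_injective (φ := zpowersHom (MulAut Γ) σ)
    rw [h1, map_one]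
  · apply nil_of_map _ (SemidirectProduct.inl : Γ →* Γ ⋊[zpowersHom (MulAut Γ) σ] Multiplicative ℤ)
      SemidirectProduct.inl_injective
    refine nil_mono ?_ hnil
    rw [MonoidHom.map_closure, Subgroup.closure_le]
    rintro _ ⟨x, ⟨i, rfl⟩, rfl⟩
    rw [← diff_iter σ t ht m (i + 1) g]
    have h1 := W.lowerCentralSeries_antitone (Nat.zero_le i) (hlcs i)
    rw [Subgroup.lowerCentralSeries_zero] at h1
    exact h1

end Pool.Agent.P8H75.PG
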